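import Pool.Agent.Y719.LC.Main

/-!
MP_f82ddf_nt, Q1: the equivalence of hyperbolicity and finiteness of rational points, for the entire
curves and for the sequences of points which are given by linear equations in towers over
differential (difference) rings of transcendence degree at most one, and for the points on curves
`y² = x³ + a x + b`. The definitions are in `Pool/Agent/Y719/LC/RDef.lean` and
`Pool/Agent/Y719/LC/CDef.lean`.
-/

set_option autoImplicit false

namespace Pool.Agent.Results.MP_f82ddf_nt.EllipticTowerLang

open MvPolynomial
open Pool.Agent.TH143.GE (Tow1)
open Pool.Agent.TH143.TW (Good)
open Pool.Agent.Y719.LC

variable {K : Type} [Field K] [NumberField K] {N : ℕ}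

/-- Let `K` be a number field, embedded in `ℂ` by `σ`, let `X` and `Z` be the projective varieties
over `K` given by the forms in `I` and `I'` (for `I' = ⊤` the variety `Z` is empty). The following
are equivalent:

(1) all nonconstant entire curves in `X` with homogeneous coordinates given by linear differential
equations over a differential ring of meromorphic functions of transcendence degree at most one, or
by a tower of exponentials, integrals and gap series over such a ring, lie in `Z`;
(2) all nonconstant holomorphic maps from one-dimensional complex tori to `X` lie in `Z`;
(3) there is no nonconstant map over `ℂ` from the projective line or from an elliptic curve to `X`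
with image not contained in `Z`;
(4) all sequences of complex points of `X` outside of `Z`, with homogeneous coordinates given by
linear recurrences over the fields of sequences in towers over difference fields of transcendence
degree at most one, are eventually periodic;
(5) for all finite extensions `L` of `K`, all these sequences of points of `X(L)` outside of `Z` are
eventually periodic;
(6) for all `L`, these sequences in `X(L)` have finitely many different terms;
(7) for all `L`, all `a b : L` and all polynomials `P j`, `Q j`, only finitely many points of `X(L)`
outside of `Z` are of the form `[P j (x) + Q j (x) y]` with `x y : L`, `y² = x³ + a x + b`;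
(8) for all `L`, there is no nonconstant map over `L` from the projective line or from an elliptic
curve to `X` with image not contained in `Z`.

If all nonconstant entire curves in `X` lie in `Z`, then the conditions hold. If `X(L)` has finitely
many points outside of `Z` for all `L`, then the conditions hold. -/
theorem result (σ : K →+* ℂ) (I I' : Ideal (MvPolynomial (Fin (N + 1)) K)) :
    [CurvesIn (fun f => LinCurve f ∨ TowerCurve f) σ I I', CurvesIn TorusCurve σ I I',
      AlgIn σ I I', ∀ B, Tow1 B → Good σ I I' B, PerSeq I I', FinSeq I I', FinCubic I I',
      AlgNF I I'].TFAE ∧
    (Hyperbolic σ I I' → AlgNF I I') ∧ (Finiteness I I' → AlgNF I I') :=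
  lang_tfae σ I I'

end Pool.Agent.Results.MP_f82ddf_nt.EllipticTowerLang
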